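import Pool.Agent.H73.CBE.Stmts

set_option autoImplicit false

open Set Metric MeasureTheory Module
open scoped ENNReal

namespace Pool.CBE

theorem PKB_thm : PKBStmt := by
  intro F _ _ _ T R s hs hR hT hsep
  borelize F
  let μ : Measure F := Measure.addHaar
  have hδ : 0 < s / 2 := by positivity
  have hρ : 0 < R + s / 2 := by positivity
  set A := ⋃ c ∈ T, ball (c : F) (s / 2) with hA
  have D : Set.Pairwise (T : Set F) (Function.onFun Disjoint fun c => ball (c : F) (s / 2)) := by
    rintro c hc d hd hcd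
    apply ball_disjoint_ball
    rw [dist_eq_norm]
    have h1 := hsep c hc d hd hcd
    linarith
  have hAsub : A ⊆ ball (0 : F) (R + s / 2) := by
    refine iUnion₂_subset fun x hx => ?_
    apply ball_subset_ball'
    rw [dist_zero_right]
    have h1 := hT x hx
    linarith
  have I : (T.card : ℝ≥0∞) * ENNReal.ofReal ((s / 2) ^ finrank ℝ F) * μ (ball 0 1) ≤
      ENNReal.ofReal ((R + s / 2) ^ finrank ℝ F) * μ (ball 0 1) :=
    calc
      (T.card : ℝ≥0∞) * ENNReal.ofReal ((s / 2) ^ finrank ℝ F) * μ (ball 0 1) = μ A := by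
        rw [hA, measure_biUnion_finset D fun c _ => measurableSet_ball]
        simp only [μ.addHaar_ball_of_pos _ hδ]
        simp only [Finset.sum_const, nsmul_eq_mul, mul_assoc]
      _ ≤ μ (ball (0 : F) (R + s / 2)) := measure_mono hAsub
      _ = ENNReal.ofReal ((R + s / 2) ^ finrank ℝ F) * μ (ball 0 1) := by
        simp only [μ.addHaar_ball_of_pos _ hρ]
  have J : (T.card : ℝ≥0∞) * ENNReal.ofReal ((s / 2) ^ finrank ℝ F) ≤
      ENNReal.ofReal ((R + s / 2) ^ finrank ℝ F) :=
    (ENNReal.mul_le_mul_iff_left (measure_ball_pos _ _ zero_lt_one).ne' measure_ball_lt_top.ne).1 I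
  have K := ENNReal.toReal_le_of_le_ofReal (pow_nonneg hρ.le _) J
  rw [ENNReal.toReal_mul, ENNReal.toReal_natCast, ENNReal.toReal_ofReal (pow_nonneg hδ.le _)] at K
  have h2 : (1 + 2 * R / s) = (R + s / 2) / (s / 2) := by
    field_simp
    ring
  rw [h2, div_pow, le_div_iff₀ (pow_pos hδ _)]
  exact K

end Pool.CBE
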